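import Mathlib
import Pool.Agent.K6.H30.TT.Fin

set_option autoImplicit false

/-!
# The rescaled Turán densities of `r`-graphs grow at most logarithmically in `r`

`T(n, k, r)` is the least number of edges of an `r`-graph on `n` vertices in which every
independent set has fewer than `k` vertices, `t(k, r) = lim_n T(n, k, r) / C(n, r)`,
`t_*(k, r) = (k - 1)^(r - 1) / r! * t(k, r)` and `t_*(r) = lim_k t_*(k, r)`.  The question is
whether the sequence `t_*(r)` is bounded.  The partition of the vertices into `(k - 1) / (r - 1)`
complete `r`-graphs gives `t_*(r) ≤ (r - 1)^(r - 1) / r!`, which is exponentially large.  Here: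

`t_*(r) ≤ log r + log log r + 19` for all `r ≥ 3`.

Construction.  Let `α` be large, and divide the vertices into about `C r log r · α` types of the
same size, and the types into `α / (r² log r)` groups.  The edges are (1) the `r`-sets with `r`
different types whose set of types belongs to a random family of `(1 + o(1)) log r · α` times the
reciprocal of the density, in all `r`-sets, of the `r`-subsets of an `α`-set: this family hits all
sets of `α (1 - 1 / (r log r))` types; (2) the `r`-sets whose types belong to one group, and which
use at most `(r + 1) / 2` types.  Let `A` be independent.  By (2), the elements of `A` in a group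
number at most `r - 1` more than their types: otherwise `(r + 1) / 2` types of the group would
contain `r` elements of `A`.  So in all at most `α / (r log r)` elements are lost when `A` is
replaced by the set of its types, and by (1) `A` has at most `α` elements.  The number of the
edges (2) is negligible.  The logarithm comes from the number of the sets of types.
-/

namespace Pool.Agent.Results.MP_ea5d3c_co.LogarithmicBound

open Pool.Agent.K6.H30.TT Filter Topology

/-- For `r ≥ 2`: the Turán densities `t(k, r) = lim_n T(n, k, r) / C(n, r)` exist for `k > r`, the
rescaled densities `t_*(k, r)` converge to `t_*(r)` as `k → ∞`, which is also their infimum, and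
**`t_*(r) ≤ log r + log log r + 19` for all `r ≥ 3`.** -/
theorem result :
    (∀ r : ℕ, 2 ≤ r →
      (∀ k : ℕ, r < k →
        Tendsto (fun n : ℕ => (T n k r : ℝ) / (n.choose r : ℝ)) atTop (𝓝 (t k r))) ∧
      Tendsto (fun k : ℕ => tStarK k r) atTop (𝓝 (tStar r)) ∧
      (∀ k : ℕ, r < k → tStar r ≤ tStarK k r)) ∧
    ∀ r : ℕ, 3 ≤ r → tStar r ≤ Real.log r + Real.log (Real.log r) + 19 := by
  refine ⟨fun r hr => ⟨fun k hk => tendsto_t hk, ?_, fun k hk => tStar_le (by omega) hk⟩,
    fun r hr => tStar_le_log r hr⟩
  rw [tStar_eq (by omega)]
  exact tendsto_tInf (by omega)

end Pool.Agent.Results.MP_ea5d3c_co.LogarithmicBound
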